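import Mathlib

namespace Pool.Agent.Results.MP_e3277b_lc.No
open Classical

inductive Fm | var (n : ℕ) | bot | imp (a b : Fm) | box (a : Fm)

def sig : Fm → Finset ℕ
  | .var n => {n} | .bot => ∅ | .imp a b => sig a ∪ sig b | .box a => sig a

def sub (s : ℕ → Fm) : Fm → Fm
  | .var n => s n | .bot => .bot | .imp a b => .imp (sub s a) (sub s b) | .box a => .box (sub s a)

def Sat {W : Type} (R : W → W → Prop) (V : ℕ → W → Prop) : W → Fm → Prop
  | x, .var n => V n x | _, .bot => False | x, .imp a b => Sat R V x a → Sat R V x b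
  | x, .box a => ∀ y, R x y → Sat R V y a

/-- Boolean evaluation treating variables and boxed formulas as atoms -/
def ev (v : Fm → Prop) : Fm → Prop
  | .var n => v (.var n) | .bot => False | .imp a b => ev v a → ev v b | .box a => v (.box a)

def Normal (L : Set Fm) : Prop := (∀ a, (∀ v, ev v a) → a ∈ L) ∧
  (∀ a b, .imp (.box (.imp a b)) (.imp (.box a) (.box b)) ∈ L) ∧ (∀ a b, .imp a b ∈ L → a ∈ L → b ∈ L) ∧
  (∀ a ∈ L, .box a ∈ L) ∧ ∀ a ∈ L, ∀ s, sub s a ∈ L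

def FrameFor (L : Set Fm) {W : Type} (R : W → W → Prop) : Prop := ∀ a ∈ L, ∀ V x, Sat R V x a

def Bisim (σ : Finset ℕ) {W U : Type} (R : W → W → Prop) (V : ℕ → W → Prop) (S : U → U → Prop) (T : ℕ → U → Prop)
    (Z : W → U → Prop) : Prop := ∀ x y, Z x y → (∀ n ∈ σ, V n x ↔ T n y) ∧ (∀ x', R x x' → ∃ y', S y y' ∧ Z x' y') ∧
  ∀ y', S y y' → ∃ x', R x x' ∧ Z x' y'

def KripkeCrit (L : Set Fm) : Prop := ∀ a b, (¬ ∃ i, sig i ⊆ sig a ∩ sig b ∧ .imp a i ∈ L ∧ .imp i b ∈ L) ↔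
  ∃ (W U : Type) (R : W → W → Prop) (V : ℕ → W → Prop) (S : U → U → Prop) (T : ℕ → U → Prop) (Z : W → U → Prop)
    (x : W) (y : U), FrameFor L R ∧ FrameFor L S ∧ Bisim (sig a ∩ sig b) R V S T Z ∧ Z x y ∧ Sat R V x a ∧ ¬ Sat S T y b

def StrComp (L : Set Fm) : Prop := ∀ Γ : Set Fm, (∀ l : List Fm, (∀ a ∈ l, a ∈ Γ) → l.foldr .imp .bot ∉ L) →
  ∃ (W : Type) (R : W → W → Prop) (V : ℕ → W → Prop) (x : W), FrameFor L R ∧ ∀ a ∈ Γ, Sat R V x a

structure Pt where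
  W : Type
  R : W → W → Prop
  V : ℕ → W → Prop
  x : W
  tr : ∀ x y z, R x y → R y z → R x z
  wf : WellFounded fun x y => R y x

def Pt.s (m : Pt) (a : Fm) : Prop := Sat m.R m.V m.x a

def Lg : Set Fm := {a | ∀ m : Pt, m.s a}

noncomputable def sf : Fm → Finset Fm
  | .var n => {.var n} | .bot => {.bot} | .imp a b => insert (.imp a b) (sf a ∪ sf b) | .box a => insert (.box a) (sf a)

theorem sf_self (a) : a ∈ sf a := by cases a <;> simp [sf]

theorem sf_sub {a b} (h : b ∈ sf a) : sf b ⊆ sf a ∧ sig b ⊆ sig a := by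
  induction a with
  | imp a c i j =>
    rcases Finset.mem_insert.1 h with rfl | h
    · exact ⟨subset_rfl, subset_rfl⟩
    · rcases Finset.mem_union.1 h with h | h
      exacts [⟨fun x e => by simp [sf, (i h).1 e], fun x e => by simp [sig, (i h).2 e]⟩,
        ⟨fun x e => by simp [sf, (j h).1 e], fun x e => by simp [sig, (j h).2 e]⟩]
  | box a i =>
    rcases Finset.mem_insert.1 h with rfl | h
    exacts [⟨subset_rfl, subset_rfl⟩, ⟨fun x e => by simp [sf, (i h).1 e], (i h).2⟩]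
  | _ => rw [Finset.mem_singleton.1 h]; exact ⟨subset_rfl, subset_rfl⟩

def Sep (σ : Finset ℕ) (P Q : Pt → Prop) : Prop := ∃ i, sig i ⊆ σ ∧ (∀ m, P m → m.s i) ∧ ∀ m, Q m → ¬ m.s i

variable {σ : Finset ℕ} {P Q : Pt → Prop}

theorem Sep.symm (h : Sep σ P Q) : Sep σ Q P :=
  let ⟨i, h1, h2, h3⟩ := h; ⟨.imp i .bot, by simpa [sig] using h1, h3, fun m e n => n (h2 m e)⟩

noncomputable def ty (a : Fm) (m : Pt) : Finset Fm := (sf a).filter m.s

theorem split (a) (h : ¬ Sep σ P Q) : ∃ t, ¬ Sep σ (fun m => P m ∧ ty a m = t) Q := by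
  by_contra n
  push Not at n
  have : ∀ F : Finset (Finset Fm), Sep σ (fun m => P m ∧ ty a m ∈ F) Q := fun F => by
    induction F using Finset.induction with
    | empty => exact ⟨.bot, by simp [sig], by simp, fun _ _ => id⟩
    | insert t F _ ih =>
      obtain ⟨i, i1, i2, i3⟩ := ih
      obtain ⟨j, j1, j2, j3⟩ := n t
      exact ⟨.imp (.imp i .bot) j, by simp [sig, Finset.union_subset_iff, *], fun m e k =>
        (Finset.mem_insert.1 e.2).elim (fun c => j2 m ⟨e.1, c⟩) fun c => (k (i2 m ⟨e.1, c⟩)).elim,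
        fun m e k => j3 m e (k (i3 m e))⟩
  obtain ⟨i, i1, i2, i3⟩ := this (sf a).powerset
  exact h ⟨i, i1, fun m e => i2 m ⟨e, Finset.mem_powerset.2 (Finset.filter_subset ..)⟩, i3⟩

theorem split2 (a b) (h : ¬ Sep σ P Q) : ∃ t u, ¬ Sep σ (ty a · = t) (ty b · = u) ∧ (∃ m, P m ∧ ty a m = t) ∧
    ∃ m, Q m ∧ ty b m = u := by
  obtain ⟨t, h⟩ := split a h
  obtain ⟨u, h⟩ := split b (mt Sep.symm h)
  refine ⟨t, u, fun ⟨i, i1, i2, i3⟩ => h (Sep.symm ⟨i, i1, fun m e => i2 m e.2, fun m e => i3 m e.2⟩),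
    by_contra fun n => h ⟨.imp .bot .bot, by simp [sig], fun _ _ => id, fun m e => (n ⟨m, e⟩).elim⟩,
    by_contra fun n => h ⟨.bot, by simp [sig], fun m e => (n ⟨m, e⟩).elim, fun _ _ => id⟩⟩

def Up (t t' : Finset Fm) : Prop := ∀ c, .box c ∈ t → c ∈ t' ∧ .box c ∈ t'

theorem succ {a b c t u} (h : ¬ Sep σ (ty a · = t) (ty b · = u)) (hc : .box c ∈ sf a) (n : .box c ∉ t) :
    ∃ t' u', ¬ Sep σ (ty a · = t') (ty b · = u') ∧ Up t t' ∧ Up u u' ∧ .box c ∈ t' ∧ c ∉ t' := by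
  have up : ∀ a t (m : Pt), (∀ c, .box c ∈ t → .box c ∈ sf a ∧ m.s c ∧ m.s (.box c)) → Up t (ty a m) := fun a t m h c e =>
    ⟨Finset.mem_filter.2 ⟨(sf_sub (h c e).1).1 (by simp [sf, sf_self]), (h c e).2.1⟩,
      Finset.mem_filter.2 ⟨(h c e).1, (h c e).2.2⟩⟩
  have nx : ∀ a (m : Pt) y, m.R m.x y → ∀ c, .box c ∈ ty a m → .box c ∈ sf a ∧ { m with x := y }.s c ∧
      { m with x := y }.s (.box c) := fun a m y r c e =>
    let ⟨e1, e2⟩ := Finset.mem_filter.1 e; ⟨e1, e2 y r, fun z k => e2 z (m.tr _ _ _ r k)⟩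
  obtain ⟨t', u', h1, ⟨m, m1, rfl⟩, m', m2, rfl⟩ := split2 a b (σ := σ)
    (P := fun m => (∀ c, .box c ∈ t → .box c ∈ sf a ∧ m.s c ∧ m.s (.box c)) ∧ m.s (.box c) ∧ ¬ m.s c)
    (Q := fun m => ∀ c, .box c ∈ u → .box c ∈ sf b ∧ m.s c ∧ m.s (.box c)) fun ⟨i, i1, i2, i3⟩ => by
      refine h ⟨.imp (.box (.imp i .bot)) .bot, by simpa [sig] using i1, ?_, ?_⟩
      · rintro m rfl k
        obtain ⟨y, y1, y2⟩ := m.wf.has_min {y | m.R m.x y ∧ ¬ Sat m.R m.V y c} (by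
          by_contra e
          exact n (Finset.mem_filter.2 ⟨hc, fun y r => by_contra fun q => e ⟨y, r, q⟩⟩))
        exact k y y1.1 (i2 { m with x := y } ⟨nx a m y y1.1,
          fun z r => by_contra fun q => y2 z ⟨m.tr _ _ _ y1.1 r, q⟩ r, y1.2⟩)
      · rintro m rfl k
        exact k fun y r => i3 { m with x := y } (nx b m y r)
  exact ⟨_, _, h1, up a t m m1.1, up b u m' m2, Finset.mem_filter.2 ⟨hc, m1.2.1⟩,
    fun e => m1.2.2 (Finset.mem_filter.1 e).2⟩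

theorem truth {W : Type} {R : W → W → Prop} {V : ℕ → W → Prop} {a} (t : W → Finset Fm) (h1 : ∀ w, ∃ m, ty a m = t w)
    (h2 : ∀ w n, .var n ∈ sf a → (V n w ↔ .var n ∈ t w)) (h3 : ∀ w v, R w v → Up (t w) (t v))
    (h4 : ∀ w c, .box c ∈ sf a → .box c ∉ t w → ∃ v, R w v ∧ c ∉ t v) : ∀ c ∈ sf a, ∀ w, Sat R V w c ↔ c ∈ t w := by
  intro c hc
  induction c with
  | var n => exact fun w => h2 w n hc
  | bot => intro w; obtain ⟨m, e⟩ := h1 w; simp [← e, ty, Sat, Pt.s]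
  | imp c d i j =>
    intro w
    obtain ⟨m, e⟩ := h1 w
    have k1 : c ∈ sf a := (sf_sub hc).1 (by simp [sf, sf_self])
    have k2 : d ∈ sf a := (sf_sub hc).1 (by simp [sf, sf_self])
    rw [Sat, i k1, j k2]; simp [← e, ty, Sat, Pt.s, *]
  | box c i =>
    have k : c ∈ sf a := (sf_sub hc).1 (by simp [sf, sf_self])
    exact fun w => ⟨fun h => by_contra fun n => let ⟨v, r, e⟩ := h4 w c hc n; e ((i k v).1 (h v r)),
      fun h v r => (i k v).2 (h3 w v r c h).1⟩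

theorem canon {a b} (h : ¬ Sep (sig a ∩ sig b) (·.s a) fun m => ¬ m.s b) : ∃ m : Pt, m.s a ∧ ¬ m.s b := by
  let W := {p : Finset Fm × Finset Fm // ¬ Sep (sig a ∩ sig b) (ty a · = p.1) (ty b · = p.2)}
  let R : W → W → Prop := fun p q => Up p.1.1 q.1.1 ∧ Up p.1.2 q.1.2 ∧
    ∃ c, (.box c ∉ p.1.1 ∧ .box c ∈ q.1.1) ∨ (.box c ∉ p.1.2 ∧ .box c ∈ q.1.2)
  let V : ℕ → W → Prop := fun n p => .var n ∈ p.1.1 ∨ .var n ∈ p.1.2
  have ex : ∀ p : W, (∃ m, ty a m = p.1.1) ∧ ∃ m, ty b m = p.1.2 := fun p =>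
    let ⟨_, _, _, ⟨m, e, _⟩, m', e', _⟩ := split2 a b p.2; ⟨⟨m, e⟩, m', e'⟩
  have vv : ∀ a b σ t u n, (n ∈ sig a → n ∈ sig b → n ∈ σ) → ¬ Sep σ (ty a · = t) (ty b · = u) → (∃ m, ty b m = u) →
      .var n ∈ sf a → .var n ∈ u → .var n ∈ t := fun a b σ t u n k h ⟨m, e⟩ h1 h2 => by_contra fun q =>
    h (Sep.symm ⟨.var n, by
      simpa [sig] using k ((sf_sub h1).2 (by simp [sig])) ((sf_sub (Finset.mem_filter.1 (e ▸ h2)).1).2 (by simp [sig])),
      fun m e => (Finset.mem_filter.1 (e ▸ h2 : _ ∈ ty b m)).2, fun m e s => q (e ▸ Finset.mem_filter.2 ⟨h1, s⟩)⟩)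
  have t1 := truth (R := R) (V := V) (a := a) (fun p => p.1.1) (fun p => (ex p).1)
    (fun p n e => or_iff_left_of_imp (vv a b _ _ _ n (by simp +contextual) p.2 (ex p).2 e)) (fun _ _ r => r.1)
    fun p c e n => let ⟨t, u, k1, k2, k3, k4, k5⟩ := succ p.2 e n; ⟨⟨(t, u), k1⟩, ⟨k2, k3, c, .inl ⟨n, k4⟩⟩, k5⟩
  have t2 := truth (R := R) (V := V) (a := b) (fun p => p.1.2) (fun p => (ex p).2)
    (fun p n e => or_iff_right_of_imp (vv b a _ _ _ n (by simp +contextual) (mt Sep.symm p.2) (ex p).1 e))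
    (fun _ _ r => r.2.1) fun p c e n => let ⟨t, u, k1, k2, k3, k4, k5⟩ := succ (mt Sep.symm p.2) e n
      ⟨⟨(u, t), mt Sep.symm k1⟩, ⟨k3, k2, c, .inr ⟨n, k4⟩⟩, k5⟩
  have tr : ∀ x y z, R x y → R y z → R x z := fun x y z ⟨a1, a2, c, a3⟩ ⟨b1, b2, _⟩ =>
    ⟨fun d e => b1 d (a1 d e).2, fun d e => b2 d (a2 d e).2, c,
      a3.imp (.imp_right fun e => (b1 c e).2) (.imp_right fun e => (b2 c e).2)⟩
  have : Finite W := Finite.of_injective (β := (sf a).powerset × (sf b).powerset) (fun p =>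
    (⟨p.1.1, let ⟨_, e⟩ := (ex p).1; e ▸ Finset.mem_powerset.2 (Finset.filter_subset ..)⟩,
      ⟨p.1.2, let ⟨_, e⟩ := (ex p).2; e ▸ Finset.mem_powerset.2 (Finset.filter_subset ..)⟩))
    fun p q e => Subtype.ext (by simpa [Prod.ext_iff] using e)
  have : IsTrans W fun x y => R y x := ⟨fun x y z a b => tr _ _ _ b a⟩
  have : Std.Irrefl fun x y => R y x := ⟨fun x ⟨_, _, _, e⟩ => e.elim (fun e => e.1 e.2) fun e => e.1 e.2⟩
  obtain ⟨t, u, k, ⟨m, m1, rfl⟩, m', m2, rfl⟩ := split2 a b h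
  exact ⟨⟨W, R, V, ⟨(_, _), k⟩, tr, Finite.wellFounded_of_trans_of_irrefl _⟩,
    (t1 a (sf_self a) _).2 (Finset.mem_filter.2 ⟨sf_self a, m1⟩),
    fun e => m2 (Finset.mem_filter.1 ((t2 b (sf_self b) _).1 e)).2⟩

theorem result : ∃ L, Normal L ∧ KripkeCrit L ∧ ¬ StrComp L := by
  have fr : ∀ m : Pt, FrameFor Lg m.R := fun m a h V x => h { m with V := V, x := x }
  refine ⟨Lg, ⟨fun a h m => ?_, fun a b m h k y r => h y r (k y r), fun a b h k m => h m (k m),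
    fun a h m y _ => h { m with x := y }, fun a h s m => ?_⟩, fun a b => ⟨fun h => ?_, ?_⟩, fun h => ?_⟩
  · have : ∀ a, ev m.s a ↔ m.s a := fun a => by induction a <;> simp_all [ev, Pt.s, Sat]
    exact (this a).1 (h _)
  · have : ∀ a x, Sat m.R m.V x (sub s a) ↔ Sat m.R (fun n y => Sat m.R m.V y (s n)) x a := fun a => by
      induction a <;> simp_all [sub, Sat]
    exact (this a _).2 (fr m a h _ _)
  · obtain ⟨m, h1, h2⟩ := canon fun ⟨i, i1, i2, i3⟩ => h ⟨i, i1, i2, fun m e => by_contra fun n => i3 m n e⟩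
    exact ⟨_, _, m.R, m.V, m.R, m.V, Eq, m.x, m.x, fr m, fr m, by rintro x _ rfl; simp, rfl, h1, h2⟩
  · rintro ⟨W, U, R, V, S, T, Z, x, y, h1, h2, h3, h4, h5, h6⟩ ⟨i, i1, i2, i3⟩
    have : ∀ i, sig i ⊆ sig a ∩ sig b → ∀ x y, Z x y → (Sat R V x i ↔ Sat S T y i) := fun i => by
      induction i with
      | var n => exact fun e x y z => (h3 x y z).1 n (e (by simp [sig]))
      | bot => simp [Sat]
      | imp c d i j =>
        exact fun e x y z => imp_congr (i (Finset.subset_union_left.trans e) x y z)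
          (j (Finset.subset_union_right.trans e) x y z)
      | box c i =>
        exact fun e x y z => ⟨fun h y' r => let ⟨x', a, b⟩ := (h3 x y z).2.2 y' r; (i e x' y' b).1 (h x' a),
          fun h x' r => let ⟨y', a, b⟩ := (h3 x y z).2.1 x' r; (i e x' y' b).2 (h y' a)⟩
    exact h6 (h2 _ i3 T y ((this i i1 x y h4).1 (h1 _ i2 V x h5)))
  let d : ℕ → Fm := fun n => .imp (.box (.imp (.var n) .bot)) .bot
  obtain ⟨W, R, V, x, h1, h2⟩ := h (insert (d 0) (Set.range fun n => .box (.imp (.var n) (d (n + 1))))) fun l hl k => by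
    obtain ⟨N, hN⟩ : ∃ N, ∀ a ∈ l, ∀ M, N ≤ M → Sat (fun x y : ℕ => y < x) (fun n y => y + n = M) (M + 1) a := by
      clear k
      induction l with
      | nil => simp
      | cons a l ih =>
        obtain ⟨N, hN⟩ := ih fun b e => hl b (.tail _ e)
        rcases hl a (.head _) with rfl | ⟨n, rfl⟩
        · refine ⟨N, List.forall_mem_cons.2 ⟨fun M _ k => k M (by simp) rfl, hN⟩⟩
        · refine ⟨N + n + 1, List.forall_mem_cons.2 ⟨fun M e y _ (q : y + n = M) k => ?_,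
            fun b e M q => hN b e M (by omega)⟩⟩
          exact k (y - 1) (by show y - 1 < y; omega) (by show y - 1 + (n + 1) = M; omega)
    have := k ⟨ℕ, fun x y => y < x, fun n y => y + n = N, N + 1, fun _ _ _ a b => b.trans a, wellFounded_lt⟩
    simp only [Pt.s] at this
    replace hN := fun a e => hN a e N le_rfl
    clear k hl
    induction l with
    | nil => exact this
    | cons a l ih => exact ih (this (hN a (.head _))) fun b e => hN b (.tail _ e)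
  have lob : ∀ V x, Sat R V x (.imp (.box (.imp (.box (.var 0)) (.var 0))) (.box (.var 0))) :=
    h1 _ fun m h y => m.wf.induction (C := fun y => m.R m.x y → m.V 0 y) y fun y ih r =>
      h y r fun z k => ih z k (m.tr _ _ _ r k)
  have dd : ∀ n y, Sat R V y (d n) → ∃ z, R y z ∧ V n z := fun n y e => by_contra fun q => e fun z r v => q ⟨z, r, v⟩
  obtain ⟨y, r, v⟩ := dd 0 x (h2 _ (.inl rfl))
  refine lob (fun _ y => ¬ ∃ n, V n y) x (fun y r k ⟨n, v⟩ => ?_) y r ⟨0, v⟩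
  obtain ⟨z, a, b⟩ := dd _ y (h2 _ (.inr ⟨n, rfl⟩) y r v)
  exact k z a ⟨_, b⟩

end Pool.Agent.Results.MP_e3277b_lc.No
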